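import Pool.Agent.helper51.QS.SpecB

/-!
# Row qs:LVQ: the valuation of a prime of height one
-/

set_option autoImplicit false

namespace Pool.Agent.QS

open Pool.Agent.PC MvPolynomial

universe u

/-- the localisation of a normal noetherian domain at a prime of height one is a discrete valuation
ring -/
theorem LVQ_dvr (A B : Type u) [CommRing A] [IsDomain A] [IsNoetherianRing A]
    [IsIntegrallyClosed A] (Q : Ideal A) [Q.IsPrime] (hQ : Q.height = 1) [CommRing B] [IsDomain B]
    [Algebra A B] [IsLocalization.AtPrime B Q] : IsDiscreteValuationRing B := by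
  have hM : Q.primeCompl ≤ nonZeroDivisors A := Q.primeCompl_le_nonZeroDivisors
  have hloc : IsLocalRing B := IsLocalization.AtPrime.isLocalRing B Q
  have hnoe : IsNoetherianRing B := IsLocalization.isNoetherianRing Q.primeCompl B inferInstance
  have hic : IsIntegrallyClosed B := isIntegrallyClosed_of_isLocalization B Q.primeCompl hM
  have hQb : Q ≠ ⊥ := Ideal.ne_bot_of_height_eq_one hQ
  have hinj : Function.Injective (algebraMap A B) := IsLocalization.injective B hM
  obtain ⟨a, haQ, ha0⟩ := Submodule.exists_mem_ne_zero_of_ne_bot hQb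
  have hamem : algebraMap A B a ∈ IsLocalRing.maximalIdeal B :=
    (IsLocalization.AtPrime.to_map_mem_maximal_iff B Q a).mpr haQ
  have ha0' : algebraMap A B a ≠ 0 := fun h => ha0 (hinj (by rw [h, map_zero]))
  have hmax : IsLocalRing.maximalIdeal B ≠ ⊥ := by
    intro h
    rw [h] at hamem
    exact ha0' hamem
  have hnf : ¬ IsField B := fun h => hmax (IsLocalRing.isField_iff_maximalIdeal_eq.mp h)
  have htf : (IsIntegrallyClosed B ∧ ∃! P : Ideal B, P ≠ ⊥ ∧ P.IsPrime) ↔
      IsDiscreteValuationRing B := (IsDiscreteValuationRing.TFAE B hnf).out 3 0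
  refine htf.mp ⟨hic, IsLocalRing.maximalIdeal B, ⟨hmax, inferInstance⟩, ?_⟩
  rintro P ⟨hPb, hP⟩
  have hPle : P ≤ IsLocalRing.maximalIdeal B := IsLocalRing.le_maximalIdeal hP.ne_top
  have hP' : (P.under A).IsPrime := inferInstance
  have hle : P.under A ≤ Q := by
    intro x hx
    exact (IsLocalization.AtPrime.to_map_mem_maximal_iff B Q x).mp (hPle hx)
  have hPm : Ideal.map (algebraMap A B) (P.under A) = P := IsLocalization.map_under Q.primeCompl B P
  have hPb' : P.under A ≠ ⊥ := by
    intro h
    rw [h, Ideal.map_bot] at hPm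
    exact hPb hPm.symm
  have hht : Q.height ≤ (P.under A).height := by
    rw [hQ, Order.one_le_iff_ne_zero]
    intro h
    exact hPb' (Ideal.height_eq_zero_iff_eq_bot.mp h)
  have heq : P.under A = Q := Ideal.eq_of_le_of_height_le _ hle hht
  have hmm : Ideal.map (algebraMap A B) ((IsLocalRing.maximalIdeal B).under A) =
      IsLocalRing.maximalIdeal B := IsLocalization.map_under Q.primeCompl B _
  have hmu : (IsLocalRing.maximalIdeal B).under A = Q := by
    ext x
    exact IsLocalization.AtPrime.to_map_mem_maximal_iff B Q x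
  rw [← hPm, heq, ← hmu, hmm]

/-- `x = u w^n` with a unit `u` -/
def LVQ_V {B K : Type u} [CommRing B] [Field K] [Algebra B K] (w : B) (x : K) (n : ℤ) : Prop :=
  ∃ u : Bˣ, x = algebraMap B K u * algebraMap B K w ^ n

theorem LVQ_V_unique {B K : Type u} [CommRing B] [IsDomain B] [Field K] [Algebra B K]
    [IsFractionRing B K] {w : B} (hw : Irreducible w) {x : K} {n m : ℤ} (h1 : LVQ_V w x n)
    (h2 : LVQ_V w x m) : n = m := by
  have hinj : Function.Injective (algebraMap B K) := IsFractionRing.injective B K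
  have hw0 : algebraMap B K w ≠ 0 := fun h => hw.ne_zero (hinj (by rw [h, map_zero]))
  have key : ∀ (n m : ℤ), LVQ_V w x n → LVQ_V w x m → n < m → False := by
    rintro n m ⟨u, hu⟩ ⟨v, hv⟩ hnm
    obtain ⟨k, hk⟩ : ∃ k : ℕ, m = n + ((k + 1 : ℕ) : ℤ) := ⟨(m - n - 1).toNat, by omega⟩
    rw [hu, hk, zpow_add₀ hw0, mul_comm (algebraMap B K w ^ n), ← mul_assoc] at hv
    have h3 := mul_right_cancel₀ (zpow_ne_zero n hw0) hv
    rw [zpow_natCast, ← map_pow, ← map_mul] at h3
    have h4 := hinj h3
    have h5 : IsUnit ((v : B) * w ^ (k + 1)) := by rw [← h4]; exact u.isUnit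
    have h6 : IsUnit (w ^ (k + 1)) := isUnit_of_mul_isUnit_right h5
    exact hw.not_isUnit ((isUnit_pow_iff (Nat.succ_ne_zero k)).1 h6)
  rcases lt_trichotomy n m with h | h | h
  · exact (key n m h1 h2 h).elim
  · exact h
  · exact (key m n h2 h1 h).elim

/-- nonzero elements of `B` have nonnegative value -/
theorem LVQ_V_nonneg {B K : Type u} [CommRing B] [IsDomain B] [IsDiscreteValuationRing B]
    [Field K] [Algebra B K] [IsFractionRing B K] {w : B} (hw : Irreducible w) {b : B} (hb : b ≠ 0) :
    ∃ n : ℕ, LVQ_V w (algebraMap B K b) n ∧ (1 ≤ n ↔ w ∣ b) := by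
  obtain ⟨n, u, hu⟩ := IsDiscreteValuationRing.eq_unit_mul_pow_irreducible hb hw
  refine ⟨n, ⟨u, by rw [hu, map_mul, map_pow, zpow_natCast]⟩, ?_⟩
  constructor
  · intro hn
    rw [hu]
    exact Dvd.dvd.mul_left (dvd_pow_self w (by omega)) _
  · intro hd
    by_contra hn
    have hn0 : n = 0 := by omega
    rw [hu, hn0, pow_zero, mul_one] at hd
    exact hw.not_isUnit (isUnit_of_dvd_unit hd u.isUnit)

theorem LVQ_gen (A K B : Type u) [CommRing A] [Field K] [Algebra A K] [CommRing B] [IsDomain B]
    [IsDiscreteValuationRing B] [Algebra B K] [IsFractionRing B K] [Algebra A B]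
    [IsScalarTower A B K] (Q : Ideal A) [Q.IsPrime] [IsLocalization.AtPrime B Q] :
    ∃ v : K → ℤ, LocV Q v := by
  classical
  have hinj : Function.Injective (algebraMap B K) := IsFractionRing.injective B K
  obtain ⟨w, hw⟩ := IsDiscreteValuationRing.exists_irreducible B
  have hw0 : algebraMap B K w ≠ 0 := fun h => hw.ne_zero (hinj (by rw [h, map_zero]))
  have hex : ∀ x : K, x ≠ 0 → ∃ n : ℤ, LVQ_V w x n := by
    intro x hx
    obtain ⟨n, u, hu⟩ := IsDiscreteValuationRing.exists_units_eq_smul_zpow_of_irreducible hw hx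
    refine ⟨n, u, ?_⟩
    rw [hu, Units.smul_def, Algebra.smul_def]
  let v : K → ℤ := fun x => if h : x ≠ 0 then (hex x h).choose else 0
  have hv : ∀ x : K, x ≠ 0 → LVQ_V w x (v x) := by
    intro x hx
    have : v x = (hex x hx).choose := dif_pos hx
    rw [this]
    exact (hex x hx).choose_spec
  have hval : ∀ (x : K) (n : ℤ), x ≠ 0 → LVQ_V w x n → v x = n := fun x n hx hn =>
    LVQ_V_unique hw (hv x hx) hn
  have hge0 : ∀ x : K, Ge v 0 x ↔ ∃ b : B, x = algebraMap B K b := by
    intro x
    constructor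
    · rintro (h | h)
      · exact ⟨0, by rw [h, map_zero]⟩
      · by_cases hx : x = 0
        · exact ⟨0, by rw [hx, map_zero]⟩
        · obtain ⟨u, hu⟩ := hv x hx
          obtain ⟨n, hn⟩ : ∃ n : ℕ, v x = n := ⟨(v x).toNat, by omega⟩
          rw [hn, zpow_natCast] at hu
          exact ⟨(u : B) * w ^ n, by rw [map_mul, map_pow]; exact hu⟩
    · rintro ⟨b, rfl⟩
      by_cases hb : b = 0
      · left
        rw [hb, map_zero]
      · right
        obtain ⟨n, hn, _⟩ := LVQ_V_nonneg (K := K) hw hb
        rw [hval _ n (fun h => hb (hinj (by rw [h, map_zero]))) hn]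
        exact Int.natCast_nonneg n
  refine ⟨v, ⟨?_, ?_, ?_⟩, ?_, ?_⟩
  · -- mul
    intro x y hx hy
    obtain ⟨u1, h1⟩ := hv x hx
    obtain ⟨u2, h2⟩ := hv y hy
    refine hval _ _ (mul_ne_zero hx hy) ⟨u1 * u2, ?_⟩
    rw [zpow_add₀ hw0, Units.val_mul, map_mul]
    calc x * y = (algebraMap B K u1 * algebraMap B K w ^ v x) *
        (algebraMap B K u2 * algebraMap B K w ^ v y) := by rw [← h1, ← h2]
      _ = _ := by ring
  · -- add
    have key : ∀ x y : K, x ≠ 0 → y ≠ 0 → x + y ≠ 0 → v x ≤ v y → v x ≤ v (x + y) := by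
      intro x y hx hy hxy hle
      obtain ⟨u1, h1⟩ := hv x hx
      obtain ⟨u2, h2⟩ := hv y hy
      obtain ⟨k, hk⟩ : ∃ k : ℕ, v y = v x + k := ⟨(v y - v x).toNat, by omega⟩
      have hsum : x + y = algebraMap B K w ^ v x * algebraMap B K ((u1 : B) + u2 * w ^ k) := by
        rw [map_add, map_mul, map_pow, ← zpow_natCast (algebraMap B K w) k]
        rw [hk, zpow_add₀ hw0] at h2
        calc x + y = algebraMap B K u1 * algebraMap B K w ^ v x +
            algebraMap B K u2 * (algebraMap B K w ^ v x * algebraMap B K w ^ (k : ℤ)) := by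
              rw [← h1, ← h2]
          _ = _ := by ring
      have hb : (u1 : B) + u2 * w ^ k ≠ 0 := by
        intro h
        rw [h, map_zero, mul_zero] at hsum
        exact hxy hsum
      obtain ⟨n, ⟨u3, h3⟩, _⟩ := LVQ_V_nonneg (K := K) hw hb
      have : v (x + y) = v x + n := by
        refine hval _ _ hxy ⟨u3, ?_⟩
        rw [hsum, h3, zpow_add₀ hw0]
        ring
      rw [this]
      linarith [Int.natCast_nonneg n]
    intro x y hx hy hxy
    rcases le_total (v x) (v y) with h | h
    · rw [min_eq_left h]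
      exact key x y hx hy hxy h
    · rw [min_eq_right h, add_comm x y]
      rw [add_comm x y] at hxy
      exact key y x hy hx hxy h
  · -- one
    refine ⟨algebraMap B K w, hw0, hval _ 1 hw0 ⟨1, ?_⟩⟩
    rw [Units.val_one, map_one, one_mul, zpow_one]
  · -- the ring
    intro x
    rw [hge0 x]
    constructor
    · rintro ⟨b, rfl⟩
      obtain ⟨a, s, rfl⟩ := IsLocalization.exists_mk'_eq Q.primeCompl b
      refine ⟨a, s, s.2, ?_⟩
      have hs0 : algebraMap A K s ≠ 0 := by
        rw [IsScalarTower.algebraMap_apply A B K]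
        intro h
        have h1 : algebraMap A B (s : A) = 0 := hinj (by rw [h, map_zero])
        have h2 := IsLocalization.map_units B s
        rw [h1] at h2
        exact not_isUnit_zero h2
      rw [eq_div_iff hs0, IsScalarTower.algebraMap_apply A B K s,
        IsScalarTower.algebraMap_apply A B K a, ← map_mul, IsLocalization.mk'_spec]
    · rintro ⟨a, s, hs, rfl⟩
      refine ⟨IsLocalization.mk' B a (⟨s, hs⟩ : Q.primeCompl), ?_⟩
      have hs0 : algebraMap A K s ≠ 0 := by
        rw [IsScalarTower.algebraMap_apply A B K]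
        intro h
        have h1 : algebraMap A B (s : A) = 0 := hinj (by rw [h, map_zero])
        have h2 := IsLocalization.map_units B (⟨s, hs⟩ : Q.primeCompl)
        have h3 : algebraMap A B ((⟨s, hs⟩ : Q.primeCompl) : A) = 0 := h1
        rw [h3] at h2
        exact not_isUnit_zero h2
      rw [div_eq_iff hs0, IsScalarTower.algebraMap_apply A B K s,
        IsScalarTower.algebraMap_apply A B K a, ← map_mul]
      congr 1
      exact (IsLocalization.mk'_spec B a (⟨s, hs⟩ : Q.primeCompl)).symm
  · -- the ideal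
    intro a
    rw [IsScalarTower.algebraMap_apply A B K a]
    have h0 : a ∈ Q ↔ w ∣ algebraMap A B a := by
      rw [← IsLocalization.AtPrime.to_map_mem_maximal_iff B Q a, hw.maximalIdeal_eq,
        Ideal.mem_span_singleton]
    rw [h0]
    by_cases ha : algebraMap A B a = 0
    · rw [ha, map_zero]
      exact ⟨fun _ => Or.inl rfl, fun _ => dvd_zero w⟩
    · have ha' : algebraMap B K (algebraMap A B a) ≠ 0 := fun h => ha (hinj (by rw [h, map_zero]))
      obtain ⟨n, hn, hn'⟩ := LVQ_V_nonneg (K := K) hw ha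
      rw [← hn']
      unfold Ge
      rw [hval _ n ha' hn]
      constructor
      · intro h
        exact Or.inr (by exact_mod_cast h)
      · rintro (h | h)
        · exact (ha' h).elim
        · exact_mod_cast h

theorem LVQ : LVQ_stmt.{u} := by
  intro A K _ _ _ _ _ _ _ Q hQ hht
  have hM : Q.primeCompl ≤ nonZeroDivisors A := Q.primeCompl_le_nonZeroDivisors
  let B := Localization.subalgebra.ofField K Q.primeCompl hM
  have hloc : IsLocalization.AtPrime B Q := Localization.subalgebra.isLocalization_ofField K _ hM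
  have hdvr : IsDiscreteValuationRing B := LVQ_dvr A B Q hht
  exact LVQ_gen A K B Q

end Pool.Agent.QS
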